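import Mathlib
import Pool.Agent.Results.MP_8db9c5_an.NontrivialIsometry

set_option autoImplicit false

/-!
# Every finite group acts faithfully on a Jamesification of a reflexive space

Let `Y` be a reflexive real Banach space with a normalised `1`-unconditional basis `y`, let
`X = ℝ ^ n ⊕_∞ Y`, with the basis `b` which consists of the unit vectors of `ℝ ^ n` followed by
`y`. Then the isometry group of the Jamesification `J(b)` contains `S_n × {±1}`.
-/

namespace Pool.Agent.Results.MP_8db9c5_an.EveryFiniteGroup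

open scoped ENNReal
open Pool.Agent.Results.MP_8db9c5_an.NontrivialIsometry

section combinatorics

/-- partial sums -/
noncomputable def F (a : ℕ →₀ ℝ) (m : ℕ) : ℝ := ∑ i ∈ Finset.range m, a i

theorem F_succ (a : ℕ →₀ ℝ) (m : ℕ) : F a (m + 1) = F a m + a m := by
  unfold F; rw [Finset.sum_range_succ]

theorem F_zero (a : ℕ →₀ ℝ) : F a 0 = 0 := by simp [F]

theorem F_add (a b : ℕ →₀ ℝ) (m : ℕ) : F (a + b) m = F a m + F b m := by
  simp [F, Finset.sum_add_distrib]

theorem F_smul (c : ℝ) (a : ℕ →₀ ℝ) (m : ℕ) : F (c • a) m = c * F a m := by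
  simp [F, Finset.mul_sum]

theorem isum_eq (a : ℕ →₀ ℝ) (m k : ℕ) (h : m ≤ k + 1) : isum a m k = F a (k + 1) - F a m := by
  unfold isum F
  have e : Finset.Icc m k = Finset.Ico m (k + 1) := by
    ext j; rw [Finset.mem_Icc, Finset.mem_Ico]; omega
  rw [e, Finset.sum_Ico_eq_sub _ h]

variable {n : ℕ}

/-- permutations of `{0, …, n - 1}` as permutations of `ℕ` -/
noncomputable def s (n : ℕ) : Equiv.Perm (Fin n) →* Equiv.Perm ℕ :=
  Equiv.Perm.viaEmbeddingHom (Fin.valEmbedding : Fin n ↪ ℕ)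

theorem s_inj (n : ℕ) : Function.Injective (s n) := Equiv.Perm.viaEmbeddingHom_injective _

theorem s_ge (σ : Equiv.Perm (Fin n)) (m : ℕ) (hm : n ≤ m) : s n σ m = m := by
  unfold s
  rw [Equiv.Perm.viaEmbeddingHom_apply]
  apply Equiv.Perm.viaEmbedding_apply_of_notMem
  rintro ⟨i, hi⟩
  have h1 : (i : ℕ) = m := hi
  have := i.2
  omega

theorem s_lt (σ : Equiv.Perm (Fin n)) (m : ℕ) (hm : m < n) : s n σ m < n := by
  unfold s
  rw [Equiv.Perm.viaEmbeddingHom_apply]
  have := Equiv.Perm.viaEmbedding_apply σ (Fin.valEmbedding : Fin n ↪ ℕ) ⟨m, hm⟩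
  have h2 : (Fin.valEmbedding : Fin n ↪ ℕ) ⟨m, hm⟩ = m := rfl
  rw [h2] at this
  rw [this]
  exact (σ ⟨m, hm⟩).2

/-- the action on finitely supported sequences -/
noncomputable def Tl (σ : Equiv.Perm (Fin n)) : (ℕ →₀ ℝ) →ₗ[ℝ] (ℕ →₀ ℝ) where
  toFun a := Finsupp.onFinset (Finset.range n ∪ a.support)
    (fun j => F a (s n σ⁻¹ (j + 1)) - F a (s n σ⁻¹ j)) (by
      intro j hj
      rw [Finset.mem_union, Finset.mem_range]
      by_contra hc
      push Not at hc
      apply hj
      rw [s_ge _ _ (by omega), s_ge _ _ hc.1, F_succ, Finsupp.notMem_support_iff.1 hc.2]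
      ring)
  map_add' a b := by
    ext j
    simp only [Finsupp.onFinset_apply, Finsupp.add_apply, F_add]
    ring
  map_smul' c a := by
    ext j
    simp only [Finsupp.onFinset_apply, Finsupp.smul_apply, F_smul, RingHom.id_apply, smul_eq_mul]
    ring

theorem Tl_apply (σ : Equiv.Perm (Fin n)) (a : ℕ →₀ ℝ) (j : ℕ) :
    Tl σ a j = F a (s n σ⁻¹ (j + 1)) - F a (s n σ⁻¹ j) := rfl

theorem F_Tl (σ : Equiv.Perm (Fin n)) (a : ℕ →₀ ℝ) (m : ℕ) :
    F (Tl σ a) m = F a (s n σ⁻¹ m) - F a (s n σ⁻¹ 0) := by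
  have : F (Tl σ a) m = ∑ i ∈ Finset.range m, (F a (s n σ⁻¹ (i + 1)) - F a (s n σ⁻¹ i)) := rfl
  rw [this, Finset.sum_range_sub (fun i => F a (s n σ⁻¹ i))]

theorem Tl_mul (σ τ : Equiv.Perm (Fin n)) (a : ℕ →₀ ℝ) : Tl (σ * τ) a = Tl σ (Tl τ a) := by
  ext j
  rw [Tl_apply, Tl_apply, F_Tl, F_Tl, mul_inv_rev, map_mul, Equiv.Perm.mul_apply,
    Equiv.Perm.mul_apply]
  ring

theorem Tl_one (a : ℕ →₀ ℝ) : Tl (1 : Equiv.Perm (Fin n)) a = a := by
  ext j
  rw [Tl_apply, inv_one, map_one, Equiv.Perm.one_apply, Equiv.Perm.one_apply, F_succ]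
  ring

/-- the action of permutations and signs -/
noncomputable def Tg (g : Equiv.Perm (Fin n) × ℤˣ) : (ℕ →₀ ℝ) →ₗ[ℝ] (ℕ →₀ ℝ) :=
  (((g.2 : ℤ) : ℝ)) • Tl g.1

theorem Tg_apply (g : Equiv.Perm (Fin n) × ℤˣ) (a : ℕ →₀ ℝ) :
    Tg g a = (((g.2 : ℤ) : ℝ)) • Tl g.1 a := rfl

theorem Tg_mul (g h : Equiv.Perm (Fin n) × ℤˣ) (a : ℕ →₀ ℝ) : Tg (g * h) a = Tg g (Tg h a) := by
  rw [Tg_apply, Tg_apply, Tg_apply, map_smul, smul_smul, Prod.fst_mul, Prod.snd_mul, Tl_mul,
    Units.val_mul, Int.cast_mul]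

theorem Tg_one (a : ℕ →₀ ℝ) : Tg (1 : Equiv.Perm (Fin n) × ℤˣ) a = a := by
  rw [Tg_apply, Prod.fst_one, Prod.snd_one, Tl_one, Units.val_one, Int.cast_one, one_smul]

theorem abs_sign (u : ℤˣ) : |((u : ℤ) : ℝ)| = 1 := by
  rcases Int.units_eq_one_or u with h | h <;> rw [h] <;> simp

/-- the action is faithful -/
theorem faithful (g : Equiv.Perm (Fin n) × ℤˣ) (h : ∀ a, Tg g a = a) : g = 1 := by
  obtain ⟨σ, u⟩ := g
  have hu : u = 1 := by
    have h1 := congrArg (fun f : ℕ →₀ ℝ => f n) (h (Finsupp.single n 1))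
    simp only [Tg_apply, Finsupp.smul_apply, Tl_apply, smul_eq_mul] at h1
    rw [s_ge _ _ (by omega), s_ge _ _ le_rfl, F_succ] at h1
    rcases Int.units_eq_one_or u with h2 | h2
    · exact h2
    · rw [h2] at h1
      simp at h1
      norm_num at h1
  subst hu
  have h2 : ∀ a m, F a (s n σ⁻¹ m) - F a (s n σ⁻¹ 0) = F a m := by
    intro a m
    have h3 := h a
    rw [Tg_apply, Units.val_one, Int.cast_one, one_smul] at h3
    rw [← F_Tl, h3]
  have hF : ∀ k m : ℕ, F (Finsupp.single k 1) m = if k < m then 1 else 0 := by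
    intro k m
    unfold F
    by_cases hk : k < m
    · rw [if_pos hk, Finset.sum_eq_single k]
      · simp
      · intro b _ hb; simp [Finsupp.single_apply, Ne.symm hb]
      · intro hb; exact absurd (Finset.mem_range.2 hk) hb
    · rw [if_neg hk]
      refine Finset.sum_eq_zero fun b hb => ?_
      have := Finset.mem_range.1 hb
      rw [Finsupp.single_apply, if_neg (by omega)]
  have h0 : s n σ⁻¹ 0 = 0 := by
    by_contra hne
    have h4 := h2 (Finsupp.single 0 1) 1
    rw [hF, hF, hF, if_pos (Nat.pos_of_ne_zero hne), if_pos (by norm_num : (0 : ℕ) < 1)] at h4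
    split_ifs at h4 <;> norm_num at h4
  have h5 : ∀ m, s n σ⁻¹ m = m := by
    intro m
    have h6 : ∀ k, (if k < s n σ⁻¹ m then (1 : ℝ) else 0) = if k < m then 1 else 0 := by
      intro k
      have := h2 (Finsupp.single k 1) m
      rw [h0, F_zero, sub_zero, hF, hF] at this
      exact this
    rcases Nat.lt_trichotomy (s n σ⁻¹ m) m with h7 | h7 | h7
    · have := h6 (s n σ⁻¹ m)
      rw [if_neg (lt_irrefl _), if_pos h7] at this
      norm_num at this
    · exact h7
    · have := h6 m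
      rw [if_pos h7, if_neg (lt_irrefl _)] at this
      norm_num at this
  have h8 : s n σ⁻¹ = 1 := Equiv.ext h5
  have h9 : σ⁻¹ = 1 := s_inj n (by rw [h8, map_one])
  rw [inv_eq_one.1 h9]
  rfl

end combinatorics

section james
variable {X : Type} [NormedAddCommGroup X] [NormedSpace ℝ X] (x : ℕ → X)

theorem single_mem (a : ℕ →₀ ℝ) (m k : ℕ) (h : m ≤ k) :
    ‖isum a m k • x m‖ ∈ jamesValues x a := by
  refine ⟨0, fun _ => m, fun _ => k, fun _ => h, ?_, ?_⟩
  · intro i j hij
    have h1 := i.2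
    have h2 := j.2
    have h3 : i.val < j.val := hij
    omega
  · rw [Fin.sum_univ_one]; rfl

/-- the vector of a system of intervals -/
noncomputable def sysV (a : ℕ →₀ ℝ) (k : ℕ) (p q : Fin (k + 1) → ℕ) : X :=
  ∑ i, isum a (p i) (q i) • x (p i)

variable (hx : ∀ i, ‖x i‖ = 1)

include hx in
theorem sysV_bound (a : ℕ →₀ ℝ) (k : ℕ) (p q : Fin (k + 1) → ℕ)
    (h2 : ∀ i j, i < j → q i < p j) : ‖sysV x a k p q‖ ≤ ∑ j ∈ a.support, |a j| := by
  classical
  unfold sysV
  refine (norm_sum_le _ _).trans ?_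
  have e1 : ∀ i, ‖isum a (p i) (q i) • x (p i)‖ ≤ ∑ j ∈ Finset.Icc (p i) (q i), |a j| := by
    intro i
    rw [norm_smul, hx, mul_one]
    exact Finset.abs_sum_le_sum_abs _ _
  refine (Finset.sum_le_sum (fun i _ => e1 i)).trans ?_
  rw [← Finset.sum_biUnion]
  · have : ∑ j ∈ (Finset.univ.biUnion fun i => Finset.Icc (p i) (q i)), |a j| ≤
        ∑ j ∈ (Finset.univ.biUnion fun i => Finset.Icc (p i) (q i)) ∪ a.support, |a j| :=
      Finset.sum_le_sum_of_subset_of_nonneg Finset.subset_union_left (fun _ _ _ => abs_nonneg _)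
    refine this.trans (le_of_eq ?_)
    symm
    apply Finset.sum_subset Finset.subset_union_right
    intro j _ hj
    rw [Finsupp.notMem_support_iff.mp hj, abs_zero]
  · intro i _ j _ hij
    rw [Function.onFun, Finset.disjoint_left]
    intro t ht ht'
    rw [Finset.mem_Icc] at ht ht'
    rcases lt_or_gt_of_ne hij with h | h
    · have := h2 i j h; omega
    · have := h2 j i h; omega

/-- The embedding of `c₀₀` into a large space of bounded families. -/
noncomputable def embX : (ℕ →₀ ℝ) →ₗ[ℝ] lp (fun _ : Sys => X) ⊤ where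
  toFun a := ⟨fun t => sysV x a t.1 t.2.1.1 t.2.1.2, memℓp_infty
    ⟨∑ j ∈ a.support, |a j|, by
      rintro _ ⟨t, rfl⟩
      exact sysV_bound x hx a _ _ _ t.2.2.2⟩⟩
  map_add' a b := by
    apply lp.ext
    funext t
    rw [lp.coeFn_add, Pi.add_apply]
    simp only [sysV, isum, Finsupp.add_apply, Finset.sum_add_distrib, add_smul]
  map_smul' c a := by
    apply lp.ext
    funext t
    rw [RingHom.id_apply, lp.coeFn_smul, Pi.smul_apply]
    simp only [sysV, isum, Finsupp.smul_apply, smul_eq_mul, ← Finset.mul_sum, Finset.smul_sum,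
      mul_smul]

include hx in
/-- the Jamesification exists -/
theorem exists_james [CompleteSpace X] : ∃ (J : Type) (_ : NormedAddCommGroup J)
    (_ : NormedSpace ℝ J) (_ : CompleteSpace J) (ι : (ℕ →₀ ℝ) →ₗ[ℝ] J),
    IsJamesification x J ι := by
  have hcomp : CompleteSpace (LinearMap.range (embX x hx)).topologicalClosure :=
    (Submodule.isClosed_topologicalClosure (LinearMap.range (embX x hx))).completeSpace_coe
  refine ⟨(LinearMap.range (embX x hx)).topologicalClosure, inferInstance, inferInstance, hcomp,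
    LinearMap.codRestrict _ (embX x hx) (fun a => Submodule.le_topologicalClosure _ ⟨a, rfl⟩),
    ?_, ?_⟩
  · intro z
    rw [Metric.mem_closure_iff]
    intro ε hε
    have hz : (z : lp (fun _ : Sys => X) ⊤) ∈ closure (LinearMap.range (embX x hx) :
        Set (lp (fun _ : Sys => X) ⊤)) := z.2
    rw [Metric.mem_closure_iff] at hz
    obtain ⟨w, ⟨a, rfl⟩, hw⟩ := hz ε hε
    exact ⟨_, ⟨a, rfl⟩, hw⟩
  · intro a
    have h2 : jamesValues x a = Set.range (fun t : Sys => ‖embX x hx a t‖) := by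
      ext r
      constructor
      · rintro ⟨k, p, q, e1, e2, rfl⟩
        exact ⟨⟨k, ⟨(p, q), e1, e2⟩⟩, rfl⟩
      · rintro ⟨⟨k, ⟨⟨p, q⟩, e1, e2⟩⟩, rfl⟩
        exact ⟨k, p, q, e1, e2, rfl⟩
    rw [h2]
    exact lp.isLUB_norm (embX x hx a)

end james

section space
variable {Y : Type} [NormedAddCommGroup Y] [NormedSpace ℝ Y] (n : ℕ)

/-- unit vectors of `ℝ ^ n` followed by `y` -/
noncomputable def bas (y : ℕ → Y) (m : ℕ) : (Fin n → ℝ) × Y :=
  if h : m < n then (Pi.single ⟨m, h⟩ 1, 0) else (0, y (m - n))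

theorem bas_lt (y : ℕ → Y) (m : ℕ) (h : m < n) : bas n y m = (Pi.single ⟨m, h⟩ 1, 0) :=
  dif_pos h

theorem bas_ge (y : ℕ → Y) (m : ℕ) (h : n ≤ m) : bas n y m = (0, y (m - n)) :=
  dif_neg (by omega)

theorem norm_bas' (y : ℕ → Y) (hy : ∀ i, ‖y i‖ = 1) (m : ℕ) : ‖bas n y m‖ = 1 := by
  rcases Nat.lt_or_ge m n with h | h
  · rw [bas_lt n y m h, Prod.norm_def, norm_zero, Pi.norm_single, norm_one]
    simp
  · rw [bas_ge n y m h, Prod.norm_def, norm_zero, hy]
    simp

variable {n}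

/-- the key estimate -/
theorem T_le' (y : ℕ → Y) (hy : ∀ i, ‖y i‖ = 1) (g : Equiv.Perm (Fin n) × ℤˣ) (a : ℕ →₀ ℝ)
    (r : ℝ) (hr : r ∈ upperBounds (jamesValues (bas n y) a)) :
    r ∈ upperBounds (jamesValues (bas n y) (Tg g a)) := by
  have hsing : ∀ m k, m ≤ k → |isum a m k| ≤ r := fun m k h => by
    have := hr (single_mem (bas n y) a m k h)
    rwa [norm_smul, norm_bas' n y hy, mul_one] at this
  have hr0 : 0 ≤ r := (abs_nonneg _).trans (hsing 0 0 le_rfl)
  rintro _ ⟨k, p, q, h1, h2, rfl⟩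
  have hp : StrictMono p := strictMono_p h1 h2
  have hT : ∀ m k, m ≤ k → isum (Tg g a) m k =
      ((g.2 : ℤ) : ℝ) * (F a (s n g.1⁻¹ (k + 1)) - F a (s n g.1⁻¹ m)) := by
    intro m k hmk
    rw [isum_eq _ _ _ (by omega), Tg_apply, F_smul, F_smul, F_Tl, F_Tl]
    ring
  have hval : ‖∑ i, (∑ j ∈ Finset.Icc (p i) (q i), a j) • bas n y (p i)‖ ≤ r :=
    hr ⟨k, p, q, h1, h2, rfl⟩
  rw [Prod.norm_def] at hval ⊢
  refine max_le ?_ ?_
  · rw [pi_norm_le_iff_of_nonneg hr0]
    intro c
    rw [Prod.fst_sum, Finset.sum_apply, Real.norm_eq_abs]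
    by_cases hex : ∃ i, p i = c
    · obtain ⟨i, hi⟩ := hex
      rw [Finset.sum_eq_single i]
      · have hpi : p i < n := by rw [hi]; exact c.2
        have e1 : ((∑ j ∈ Finset.Icc (p i) (q i), (Tg g a) j) • bas n y (p i)).1 c =
            isum (Tg g a) (p i) (q i) := by
          rw [bas_lt n y _ hpi]
          have : (⟨p i, hpi⟩ : Fin n) = c := Fin.ext hi
          simp [this, isum]
        rw [e1, hT _ _ (h1 i), abs_mul, abs_sign, one_mul]
        have hu := s_lt g.1⁻¹ _ hpi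
        have hne : s n g.1⁻¹ (q i + 1) ≠ s n g.1⁻¹ (p i) := by
          intro h
          have := (s n g.1⁻¹).injective h
          have := h1 i
          omega
        rcases Nat.lt_or_gt_of_ne hne with h | h
        · obtain ⟨v, hv⟩ : ∃ v, s n g.1⁻¹ (p i) = v + 1 := ⟨s n g.1⁻¹ (p i) - 1, by omega⟩
          have h3 := hsing (s n g.1⁻¹ (q i + 1)) v (by omega)
          rw [isum_eq _ _ _ (by omega), ← hv, abs_sub_comm] at h3
          exact h3
        · obtain ⟨v, hv⟩ : ∃ v, s n g.1⁻¹ (q i + 1) = v + 1 :=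
            ⟨s n g.1⁻¹ (q i + 1) - 1, by omega⟩
          have h3 := hsing (s n g.1⁻¹ (p i)) v (by omega)
          rw [isum_eq _ _ _ (by omega), ← hv] at h3
          exact h3
      · intro j _ hji
        rcases Nat.lt_or_ge (p j) n with hj | hj
        · rw [bas_lt n y _ hj]
          have : c ≠ ⟨p j, hj⟩ := by
            intro h
            apply hji
            apply hp.injective
            rw [hi, h]
          simp [this]
        · rw [bas_ge n y _ hj]; simp
      · intro hni; exact absurd (Finset.mem_univ i) hni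
    · push Not at hex
      rw [Finset.sum_eq_zero, abs_zero]
      · exact hr0
      · intro j _
        rcases Nat.lt_or_ge (p j) n with hj | hj
        · rw [bas_lt n y _ hj]
          have : c ≠ ⟨p j, hj⟩ := by
            intro h
            exact hex j (by rw [h])
          simp [this]
        · rw [bas_ge n y _ hj]; simp
  · refine le_trans (le_of_eq ?_) ((le_max_right _ _).trans hval)
    have e2 : (∑ i, (∑ j ∈ Finset.Icc (p i) (q i), (Tg g a) j) • bas n y (p i)).2 =
        ((g.2 : ℤ) : ℝ) • (∑ i, (∑ j ∈ Finset.Icc (p i) (q i), a j) • bas n y (p i)).2 := by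
      rw [Prod.snd_sum, Prod.snd_sum, Finset.smul_sum]
      refine Finset.sum_congr rfl fun i _ => ?_
      rcases Nat.lt_or_ge (p i) n with hj | hj
      · rw [bas_lt n y _ hj]; simp
      · have e3 : (∑ j ∈ Finset.Icc (p i) (q i), (Tg g a) j) =
            ((g.2 : ℤ) : ℝ) * ∑ j ∈ Finset.Icc (p i) (q i), a j := by
          have h3 := hT _ _ (h1 i)
          have h4 := h1 i
          rw [s_ge _ _ hj, s_ge _ _ (by omega), ← isum_eq a _ _ (by omega)] at h3
          exact h3
        rw [e3, bas_ge n y _ hj]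
        simp [mul_smul]
    rw [e2, norm_smul, Real.norm_eq_abs, abs_sign, one_mul]

theorem T_ub' (y : ℕ → Y) (hy : ∀ i, ‖y i‖ = 1) (g : Equiv.Perm (Fin n) × ℤˣ) (a : ℕ →₀ ℝ) :
    upperBounds (jamesValues (bas n y) (Tg g a)) = upperBounds (jamesValues (bas n y) a) := by
  apply Set.Subset.antisymm
  · intro r hr
    have := T_le' y hy g⁻¹ (Tg g a) r hr
    rwa [← Tg_mul, inv_mul_cancel, Tg_one] at this
  · intro r hr
    exact T_le' y hy g a r hr

/-- the linear equivalence -/
noncomputable def Te (g : Equiv.Perm (Fin n) × ℤˣ) : (ℕ →₀ ℝ) ≃ₗ[ℝ] (ℕ →₀ ℝ) :=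
  LinearEquiv.ofLinearMap (Tg g) (Tg g⁻¹)
    (LinearMap.ext fun a => by
      rw [LinearMap.comp_apply, ← Tg_mul, mul_inv_cancel, Tg_one]; rfl)
    (LinearMap.ext fun a => by
      rw [LinearMap.comp_apply, ← Tg_mul, inv_mul_cancel, Tg_one]; rfl)

theorem Te_apply (g : Equiv.Perm (Fin n) × ℤˣ) (a : ℕ →₀ ℝ) : Te g a = Tg g a := rfl

/-- the group acts on every Jamesification -/
theorem action (y : ℕ → Y) (hy : ∀ i, ‖y i‖ = 1) (J : Type) [NormedAddCommGroup J]
    [NormedSpace ℝ J] [CompleteSpace J] (ι : (ℕ →₀ ℝ) →ₗ[ℝ] J)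
    (hJ : IsJamesification (bas n y) J ι) :
    ∃ Φ : (Equiv.Perm (Fin n) × ℤˣ) →* (J ≃ₗᵢ[ℝ] J), Function.Injective Φ ∧
      ∀ g a, Φ g (ι a) = ι (Tg g a) := by
  have hnorm : ∀ g : Equiv.Perm (Fin n) × ℤˣ, ∀ a, ‖ι (Te g a)‖ = ‖ι a‖ := by
    intro g a
    have h1 := hJ.norm_isLUB (Tg g a)
    have h2 := hJ.norm_isLUB a
    unfold IsLUB at h1 h2
    rw [T_ub' y hy] at h1
    exact h1.unique h2
  let E : (Equiv.Perm (Fin n) × ℤˣ) → (J ≃ₗᵢ[ℝ] J) := fun g =>
    (Te g).extendOfIsometry ι ι hJ.dense hJ.dense (hnorm g)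
  have hE : ∀ g a, E g (ι a) = ι (Tg g a) := fun g a =>
    LinearMap.extendOfNorm_eq hJ.dense ⟨1, fun x => by rw [one_mul]; exact (hnorm g x).le⟩ a
  have hext : ∀ A B : J ≃ₗᵢ[ℝ] J, (∀ a, A (ι a) = B (ι a)) → A = B := by
    intro A B h
    have : (A : J → J) = B := hJ.dense.equalizer A.continuous B.continuous (funext h)
    exact LinearIsometryEquiv.ext fun z => congrFun this z
  refine ⟨⟨⟨E, ?_⟩, ?_⟩, ?_, hE⟩
  · apply hext
    intro a
    rw [hE, Tg_one]; rfl
  · intro g h
    apply hext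
    intro a
    show E (g * h) (ι a) = E g (E h (ι a))
    rw [hE, hE, hE, Tg_mul]
  · intro g h hgh
    have hι : ∀ a, ι a = 0 → a = 0 := by
      intro a ha
      ext m
      have h1 := (hJ.norm_isLUB a).1 (single_mem (bas n y) a m m le_rfl)
      rw [ha, norm_zero, norm_smul, norm_bas' n y hy, mul_one] at h1
      have h2 : isum a m m = a m := by unfold isum; simp
      rw [h2] at h1
      exact abs_nonpos_iff.mp h1
    have h3 : g⁻¹ * h = 1 := by
      apply faithful
      intro a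
      have h4 : E g (ι a) = E h (ι a) := by
        have : E g = E h := hgh
        rw [this]
      rw [hE, hE, ← sub_eq_zero, ← map_sub] at h4
      have h5 := sub_eq_zero.1 (hι _ h4)
      rw [Tg_mul, ← h5, ← Tg_mul, inv_mul_cancel, Tg_one]
    exact (inv_mul_eq_one.1 h3)

end space

section basis
variable {Y : Type} [NormedAddCommGroup Y] [NormedSpace ℝ Y] (n : ℕ)
  (y : UnconditionalSchauderBasis ℕ ℝ Y)

/-- coordinate functionals -/
noncomputable def coo (m : ℕ) : StrongDual ℝ ((Fin n → ℝ) × Y) :=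
  if h : m < n then
    (ContinuousLinearMap.proj (R := ℝ) (φ := fun _ : Fin n => ℝ) ⟨m, h⟩).comp
      (ContinuousLinearMap.fst ℝ (Fin n → ℝ) Y)
  else (y.coord (m - n)).comp (ContinuousLinearMap.snd ℝ (Fin n → ℝ) Y)

theorem coo_lt (m : ℕ) (h : m < n) (z : (Fin n → ℝ) × Y) : coo n y m z = z.1 ⟨m, h⟩ := by
  unfold coo; rw [dif_pos h]; rfl

theorem coo_ge (m : ℕ) (h : n ≤ m) (z : (Fin n → ℝ) × Y) :
    coo n y m z = y.coord (m - n) z.2 := by
  unfold coo; rw [dif_neg (by omega)]; rfl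

theorem coord_self (i : ℕ) : y.coord i (y i) = 1 := by
  rw [y.ortho]; exact (single_any _ i i).1 rfl

theorem coord_ne (i j : ℕ) (h : i ≠ j) : y.coord i (y j) = 0 := by
  rw [y.ortho]; exact (single_any _ i j).2 h

theorem coo_bas (i j : ℕ) : coo n y i (bas n y j) = if i = j then 1 else 0 := by
  rcases Nat.lt_or_ge i n with hi | hi
  · rw [coo_lt n y i hi]
    rcases Nat.lt_or_ge j n with hj | hj
    · rw [bas_lt n _ j hj]
      by_cases h : i = j
      · subst h; simp
      · rw [if_neg h]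
        exact Pi.single_eq_of_ne (fun h' => h (congrArg Fin.val h')) _
    · rw [bas_ge n _ j hj, if_neg (by omega)]; rfl
  · rw [coo_ge n y i hi]
    rcases Nat.lt_or_ge j n with hj | hj
    · rw [bas_lt n _ j hj, if_neg (by omega)]; exact map_zero _
    · rw [bas_ge n _ j hj]
      by_cases h : i = j
      · subst h; rw [if_pos rfl]; exact coord_self y _
      · rw [if_neg h]; exact coord_ne y _ _ (by omega)

theorem expansion' (z : (Fin n → ℝ) × Y) :
    HasSum (fun i => coo n y i z • bas n y i) z := by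
  rw [← hasSum_nat_add_iff' n]
  have h1 : z - ∑ i ∈ Finset.range n, coo n y i z • bas n y i = (0, z.2) := by
    rw [Finset.sum_range]
    refine Prod.ext ?_ ?_
    · funext c
      rw [Prod.fst_sub, Prod.fst_sum, Pi.sub_apply, Finset.sum_apply, Finset.sum_eq_single c]
      · rw [bas_lt n _ _ c.2, coo_lt n y _ c.2]
        simp
      · intro d _ hd
        rw [bas_lt n _ _ d.2]
        simp [Ne.symm hd]
      · intro hc; exact absurd (Finset.mem_univ c) hc
    · rw [Prod.snd_sub, Prod.snd_sum, Finset.sum_eq_zero, sub_zero]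
      intro d _
      rw [bas_lt n _ _ d.2]
      simp
  rw [h1]
  have h2 := y.expansion z.2
  have h3 := h2.mapL (ContinuousLinearMap.inr ℝ (Fin n → ℝ) Y)
  have h4 : (fun i => coo n y (i + n) z • bas n y (i + n)) = fun i =>
      (ContinuousLinearMap.inr ℝ (Fin n → ℝ) Y) (y.coord i z.2 • y i) := by
    funext i
    rw [coo_ge n y _ (by omega), bas_ge n _ _ (by omega), Nat.add_sub_cancel]
    simp
  rw [h4]
  exact h3

/-- the basis of `ℝ ^ n ⊕_∞ Y` -/
noncomputable def basis : UnconditionalSchauderBasis ℕ ℝ ((Fin n → ℝ) × Y) where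
  basis := bas n y
  coord := coo n y
  ortho i j := by
    have h0 := coo_bas n y i j
    by_cases h : i = j
    · rw [if_pos h] at h0
      rw [h0]
      exact ((single_any _ i j).1 h).symm
    · rw [if_neg h] at h0
      rw [h0]
      exact ((single_any _ i j).2 h).symm
  expansion := expansion' n y

theorem refl_fin : Refl (Fin n → ℝ) := by
  intro Ψ
  refine ⟨fun i => Ψ (ContinuousLinearMap.proj (R := ℝ) (φ := fun _ : Fin n => ℝ) i), ?_⟩
  ext h
  rw [NormedSpace.dual_def]
  have e1 : h = ∑ i, h (Pi.single i 1) •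
      (ContinuousLinearMap.proj (R := ℝ) (φ := fun _ : Fin n => ℝ) i) := by
    ext z
    have e2 : z = ∑ i, z i • (Pi.single i (1 : ℝ) : Fin n → ℝ) := by
      funext c
      simp [Finset.sum_apply, Pi.single_apply]
    conv_lhs => rw [e2]
    rw [map_sum]
    simp [mul_comm]
  conv_rhs => rw [e1, map_sum]
  have e3 : ∀ w : Fin n → ℝ, h w = ∑ i, w i * h (Pi.single i 1) := by
    intro w
    conv_lhs => rw [e1]
    simp [mul_comm]
  rw [e3]
  simp [mul_comm]

/-- `1`-unconditional -/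
theorem uncond (hy : ∀ (t : Finset ℕ) (a θ : ℕ → ℝ), (∀ i, |θ i| = 1) →
      ‖∑ i ∈ t, (θ i * a i) • y i‖ = ‖∑ i ∈ t, a i • y i‖)
    (t : Finset ℕ) (a θ : ℕ → ℝ) (hθ : ∀ i, |θ i| = 1) :
    ‖∑ i ∈ t, (θ i * a i) • bas n y i‖ = ‖∑ i ∈ t, a i • bas n y i‖ := by
  classical
  have key : ∀ a : ℕ → ℝ, ∑ i ∈ t, a i • bas n y i =
      (fun c : Fin n => if (c : ℕ) ∈ t then a c else 0,
        ∑ i ∈ (t.filter fun i => n ≤ i).image fun i => i - n, a (i + n) • y i) := by
    intro a
    refine Prod.ext ?_ ?_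
    · funext c
      rw [Prod.fst_sum, Finset.sum_apply]
      have e : ∀ i ∈ t, (a i • bas n y i).1 c = if i = c then a i else 0 := by
        intro i _
        rcases Nat.lt_or_ge i n with hi | hi
        · rw [bas_lt n _ i hi]
          by_cases h : i = c
          · have h' : (⟨i, hi⟩ : Fin n) = c := Fin.ext h
            rw [if_pos h, h']; simp
          · have h' : c ≠ ⟨i, hi⟩ := fun h'' => h (by rw [h''])
            rw [if_neg h]; simp [h']
        · have := c.2
          rw [bas_ge n _ i hi, if_neg (by omega)]; simp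
      rw [Finset.sum_congr rfl e, Finset.sum_ite_eq']
    · rw [Prod.snd_sum]
      have hinj : Set.InjOn (fun i => i - n) (t.filter fun i => n ≤ i : Finset ℕ) := by
        intro i hi j hj hij
        have h1 := (Finset.mem_filter.1 hi).2
        have h2 := (Finset.mem_filter.1 hj).2
        have h3 : i - n = j - n := hij
        omega
      rw [Finset.sum_image hinj, Finset.sum_filter]
      refine Finset.sum_congr rfl fun i _ => ?_
      by_cases hi : n ≤ i
      · rw [if_pos hi, bas_ge n _ i hi, Nat.sub_add_cancel hi]; simp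
      · rw [if_neg hi, bas_lt n _ i (by omega)]; simp
  rw [key, key, Prod.norm_def, Prod.norm_def]
  congr 1
  · have : ∀ c : Fin n, ‖(if (c : ℕ) ∈ t then θ c * a c else 0)‖ =
        ‖(if (c : ℕ) ∈ t then a c else 0)‖ := by
      intro c
      split_ifs
      · rw [norm_mul, Real.norm_eq_abs (θ c), hθ, one_mul]
      · rfl
    apply le_antisymm
    · rw [pi_norm_le_iff_of_nonneg (norm_nonneg _)]
      intro c
      rw [this]
      exact norm_le_pi_norm (fun c : Fin n => if (c : ℕ) ∈ t then a c else 0) c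
    · rw [pi_norm_le_iff_of_nonneg (norm_nonneg _)]
      intro c
      rw [← this]
      exact norm_le_pi_norm (fun c : Fin n => if (c : ℕ) ∈ t then θ c * a c else 0) c
  · exact hy _ (fun i => a (i + n)) (fun i => θ (i + n)) (fun i => hθ _)

end basis

/-- The basis `y` is `1`-unconditional. -/
def OneUnconditional {Y : Type} [NormedAddCommGroup Y] [NormedSpace ℝ Y] (y : ℕ → Y) : Prop :=
  ∀ (t : Finset ℕ) (a θ : ℕ → ℝ), (∀ i, |θ i| = 1) →
    ‖∑ i ∈ t, (θ i * a i) • y i‖ = ‖∑ i ∈ t, a i • y i‖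

/-- the unit vector basis of `ℓ₂` -/
theorem l2_basis : ∃ y : UnconditionalSchauderBasis ℕ ℝ L2, (∀ i, ‖y i‖ = 1) ∧
    OneUnconditional y := by
  have h0 : ∀ i j : ℕ, (lp.evalCLM ℝ (fun _ : ℕ => ℝ) 2 i) (lp.single 2 j (1 : ℝ)) =
      if i = j then 1 else 0 := by
    intro i j
    have h0' : (lp.evalCLM ℝ (fun _ : ℕ => ℝ) 2 i) (lp.single 2 j (1 : ℝ)) =
      (lp.single 2 j (1 : ℝ) : L2) i := rfl
    rw [h0', lp.single_apply]
    by_cases h : i = j
    · subst h; simp
    · rw [if_neg h]; exact Pi.single_eq_of_ne h _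
  refine ⟨⟨fun i => lp.single 2 i (1 : ℝ), fun i => lp.evalCLM ℝ (fun _ : ℕ => ℝ) 2 i, ?_, ?_⟩,
    ?_, ?_⟩
  · intro i j
    have h1 := h0 i j
    by_cases h : i = j
    · rw [if_pos h] at h1; rw [h1]; exact ((single_any _ i j).1 h).symm
    · rw [if_neg h] at h1; rw [h1]; exact ((single_any _ i j).2 h).symm
  · intro z
    have h2 := lp.hasSum_single (E := fun _ : ℕ => ℝ) (p := 2) (by simp) z
    have h4 : (fun i => (lp.evalCLM ℝ (fun _ : ℕ => ℝ) 2 i) z • (lp.single 2 i (1 : ℝ) : L2)) =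
        fun i => lp.single 2 i (z i) := by
      funext i
      have e1 : (lp.evalCLM ℝ (fun _ : ℕ => ℝ) 2 i) z = z i := rfl
      rw [e1, ← lp.single_smul]
      simp
    rw [h4]
    exact h2
  · intro i
    have h := lp.norm_single (E := fun _ : ℕ => ℝ) (p := 2) (by simp) i (1 : ℝ)
    show ‖(lp.single 2 i (1 : ℝ) : L2)‖ = 1
    rw [h]; simp
  · intro t a θ hθ
    have key : ∀ (a : ℕ → ℝ) (m : ℕ), (∑ i ∈ t, a i • (lp.single 2 i (1 : ℝ) : L2) : L2) m =
        if m ∈ t then a m else 0 := by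
      intro a m
      have e : (∑ i ∈ t, a i • (lp.single 2 i (1 : ℝ) : L2) : L2) m =
        (lp.evalCLM ℝ (fun _ : ℕ => ℝ) 2 m) (∑ i ∈ t, a i • (lp.single 2 i (1 : ℝ) : L2)) := rfl
      rw [e, map_sum, Finset.sum_congr rfl (g := fun i => if m = i then a i else 0)]
      · rw [Finset.sum_ite_eq]
      · intro i _
        rw [map_smul, h0, smul_eq_mul]
        split_ifs <;> simp
    show ‖∑ i ∈ t, (θ i * a i) • (lp.single 2 i (1 : ℝ) : L2)‖ =
      ‖∑ i ∈ t, a i • (lp.single 2 i (1 : ℝ) : L2)‖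
    rw [lp.norm_eq_tsum_rpow (by norm_num), lp.norm_eq_tsum_rpow (by norm_num)]
    congr 1
    apply tsum_congr
    intro m
    congr 1
    rw [key, key]
    split_ifs
    · rw [norm_mul, Real.norm_eq_abs (θ m), hθ, one_mul]
    · rfl

/-- `X` is reflexive and `b` is a normalised `1`-unconditional Schauder basis of `X`. -/
def Good {X : Type} [NormedAddCommGroup X] [NormedSpace ℝ X] [CompleteSpace X]
    (b : UnconditionalSchauderBasis ℕ ℝ X) : Prop :=
  Function.Surjective (NormedSpace.inclusionInDoubleDual ℝ X) ∧ (∀ i, ‖b i‖ = 1) ∧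
    OneUnconditional b

/-- The vectors `b` are the unit vectors of `ℝ ^ n` followed by the vectors `y`. -/
def Extends {Y : Type} [NormedAddCommGroup Y] [NormedSpace ℝ Y] (n : ℕ) (y : ℕ → Y)
    (b : ℕ → (Fin n → ℝ) × Y) : Prop :=
  (∀ i : Fin n, b i = (Pi.single i 1, 0)) ∧ (∀ i : ℕ, b (n + i) = (0, y i))

/-- A Jamesification of `b` exists. -/
def HasJamesification {X : Type} [NormedAddCommGroup X] [NormedSpace ℝ X] (b : ℕ → X) : Prop :=
  ∃ (J : Type) (_ : NormedAddCommGroup J) (_ : NormedSpace ℝ J) (_ : CompleteSpace J)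
    (ι : (ℕ →₀ ℝ) →ₗ[ℝ] J), IsJamesification b J ι

/-- For every Jamesification `J` of `b`, the group `G × {±1}` embeds in the group of the surjective
linear isometries of `J`, where `(1, -1)` goes to `-Id`. -/
def Acts (G : Type) [Group G] {X : Type} [NormedAddCommGroup X] [NormedSpace ℝ X]
    (b : ℕ → X) : Prop :=
  ∀ (J : Type) [NormedAddCommGroup J] [NormedSpace ℝ J] [CompleteSpace J]
    (ι : (ℕ →₀ ℝ) →ₗ[ℝ] J), IsJamesification b J ι →
    ∃ Φ : (G × ℤˣ) →* (J ≃ₗᵢ[ℝ] J), Function.Injective Φ ∧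
      Φ (1, -1) = LinearIsometryEquiv.neg ℝ

/-- **Jamesifications with large isometry groups.** (1) Let `Y` be a reflexive real Banach space
with a normalised `1`-unconditional Schauder basis `y`, and `n` a natural number. Then
`X = ℝ ^ n ⊕_∞ Y` is reflexive; the unit vectors of `ℝ ^ n` followed by `y` form a normalised
`1`-unconditional Schauder basis `b` of `X`; the Jamesification `J(b)` exists; and for every
Jamesification `J` of `b` there is an injective homomorphism of `S_n × {±1}` to the group of the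
surjective linear isometries of `J`, under which `(1, -1)` goes to `-Id`. (2) For every finite
group `G` there is a reflexive real Banach space with a normalised `1`-unconditional basis `b`
such that `J(b)` exists and `G × {±1}` embeds in the group of surjective linear isometries of every
Jamesification of `b`, with `(1, -1)` going to `-Id`. -/
theorem result :
    (∀ (Y : Type) [NormedAddCommGroup Y] [NormedSpace ℝ Y] [CompleteSpace Y]
      (y : UnconditionalSchauderBasis ℕ ℝ Y), Good y → ∀ n : ℕ,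
      ∃ b : UnconditionalSchauderBasis ℕ ℝ ((Fin n → ℝ) × Y),
        Extends n y b ∧ Good b ∧ HasJamesification b ∧ Acts (Equiv.Perm (Fin n)) b) ∧
    (∀ (G : Type) [Group G] [Finite G],
      ∃ (X : Type) (_ : NormedAddCommGroup X) (_ : NormedSpace ℝ X) (_ : CompleteSpace X)
        (b : UnconditionalSchauderBasis ℕ ℝ X),
        Good b ∧ HasJamesification b ∧ Acts G b) := by
  have h1 : ∀ (Y : Type) [NormedAddCommGroup Y] [NormedSpace ℝ Y] [CompleteSpace Y]
      (y : UnconditionalSchauderBasis ℕ ℝ Y), Good y → ∀ n : ℕ,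
      ∃ b : UnconditionalSchauderBasis ℕ ℝ ((Fin n → ℝ) × Y),
        Extends n y b ∧ Good b ∧ HasJamesification b ∧ Acts (Equiv.Perm (Fin n)) b := by
    rintro Y _ _ _ y ⟨hR, hy, hu⟩ n
    refine ⟨basis n y, ⟨fun i => bas_lt n y i i.2, fun i => ?_⟩,
      ⟨refl_prod _ _ (refl_fin n) hR, norm_bas' n y hy, uncond n y hu⟩,
      exists_james (bas n y) (norm_bas' n y hy), ?_⟩
    · have := bas_ge n y (n + i) (by omega)
      rwa [Nat.add_sub_cancel_left] at this
    · intro J _ _ _ ι hJ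
      obtain ⟨Φ, hΦ, hΦ2⟩ := action (n := n) y hy J ι hJ
      refine ⟨Φ, hΦ, ?_⟩
      have : (Φ (1, -1) : J → J) = LinearIsometryEquiv.neg ℝ :=
        hJ.dense.equalizer (Φ (1, -1)).continuous (LinearIsometryEquiv.neg ℝ).continuous (by
          funext a
          show Φ (1, -1) (ι a) = - ι a
          rw [hΦ2, ← map_neg]
          congr 1
          rw [Tg_apply, Tl_one]
          simp)
      exact LinearIsometryEquiv.ext fun z => congrFun this z
  refine ⟨h1, ?_⟩
  intro G _ _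
  classical
  have hL2 : Function.Surjective (NormedSpace.inclusionInDoubleDual ℝ L2) := refl_hilbert L2
  obtain ⟨y, hy1, hy2⟩ := l2_basis
  obtain ⟨b, -, hb, hE, hact⟩ := h1 L2 y ⟨hL2, hy1, hy2⟩ (Nat.card G)
  refine ⟨(Fin (Nat.card G) → ℝ) × L2, inferInstance, inferInstance, inferInstance, b, hb, hE, ?_⟩
  intro J _ _ _ ι hJ
  obtain ⟨Φ, hΦ, hneg⟩ := hact J ι hJ
  let e : G ≃ Fin (Nat.card G) := Finite.equivFin G
  let c : G →* Equiv.Perm (Fin (Nat.card G)) :=
    (e.permCongrHom : Equiv.Perm G →* Equiv.Perm (Fin (Nat.card G))).comp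
      (MulAction.toPermHom G G)
  have hc : Function.Injective c := by
    intro g h hgh
    exact MulAction.toPerm_injective (e.permCongrHom.injective hgh)
  refine ⟨Φ.comp (c.prodMap (MonoidHom.id ℤˣ)), ?_, ?_⟩
  · intro g h hgh
    have h2 : (c.prodMap (MonoidHom.id ℤˣ)) g = (c.prodMap (MonoidHom.id ℤˣ)) h := hΦ hgh
    have h3 : c g.1 = c h.1 := congrArg Prod.fst h2
    have h4 : ((c.prodMap (MonoidHom.id ℤˣ)) g).2 = ((c.prodMap (MonoidHom.id ℤˣ)) h).2 :=
      congrArg Prod.snd h2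
    exact Prod.ext (hc h3) h4
  · rw [MonoidHom.comp_apply, ← hneg]
    congr 1
    exact Prod.ext (map_one c) rfl

end Pool.Agent.Results.MP_8db9c5_an.EveryFiniteGroup
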